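import Pool.Agent.V8H76.BB.EndFaithful

/-!
# Bloch-Beilinson filtrations and square-zero endomorphisms of middle motives

`𝒱` is a class of smooth projective irreducible varieties over the field `k` closed under products
(for the problem: all of them, over an uncountable algebraically closed field such as `ℂ`), `C` the
Chow groups with rational coefficients (in the form of their formal properties, `IsChowProj`), `H` a
Weil cohomology theory (`IsWeilProj`) and `ample X` the set of the classes of ample divisors on `X`.
`HasSections` and `HasPencils` record the theorem of Bertini, the weak Lefschetz theorem for `H`, the
existence of Lefschetz pencils and the theorem of Bloch and Srinivas for them.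

Theorem: under the standard conjecture of Lefschetz type (which is a part of all the statements
below, not a hypothesis of the theorem) the following are equivalent.

1. There is a Bloch-Beilinson filtration.
2. Homologically trivial self-correspondences of degree zero are nilpotent and strictly lower the
   weights: their components `h^a(X) → h^b(X)` vanish for `a ≤ b`.
3. Homologically trivial self-correspondences of degree zero are nilpotent, and for all `X` of even
   dimension `d` the middle motive `h^d(X)` has no symmetric homologically trivial endomorphism
   `γ ≠ 0` with `γ ∘ γ = 0`.

So the passage from the nilpotence of homologically trivial endomorphisms (for instance from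
Kimura finite-dimensionality) to the Bloch-Beilinson conjecture only concerns symmetric
endomorphisms with square zero of the motives `h^d(X)`, `d = dim X` even; no cycles other than
endomorphisms, no filtration and no Lefschetz statement for Chow groups enter. A homologically
trivial class `z ∈ CH^i(X)`, `dim X = 2 i`, gives the endomorphisms `z × z` and, if this vanishes,
`D^i × z + z × D^i` of this kind (projected to the middle motive).
-/

set_option autoImplicit false

open CategoryTheory AlgebraicGeometry

universe u v w

namespace Pool.Agent.V8H76.Kept.SquareZeroEndomorphisms

open Pool.Agent.H914 Pool.Agent.W492.BB Pool.Agent.TH133 Pool.Agent.V8H76.BB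

/-- Over a universal domain the Bloch-Beilinson conjecture (with the standard conjecture of Lefschetz
type) is equivalent to the nilpotence of homologically trivial correspondences and the absence of
nonzero symmetric homologically trivial endomorphisms with square zero of the middle motives of
even-dimensional varieties. -/
theorem result {k : Type u} [Field k] {𝒱 : VarClass k} (C : TheoryData.{u, v, 0} 𝒱 ℚ)
    [IsChowProj C] {K : Type w} [Field K] (H : WeilTheoryData.{u, v, w} C K) [IsWeilProj H]
    (ample : ∀ X : 𝒱.Obj, Set (C.A X)) (hS : HasSections H ample) (hP : HasPencils H ample) :
    [LefschetzConjecture H ample ∧ (∃ F, IsBB H F),
      LefschetzConjecture H ample ∧ HomNilpotent H ∧ LowersWeights H,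
      LefschetzConjecture H ample ∧ HomNilpotent H ∧ NoSquareZero H].TFAE :=
  tfae_end hS hP

end Pool.Agent.V8H76.Kept.SquareZeroEndomorphisms
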